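import Pool.Agent.Run7.h745.AH.Iface

/-! # Piece LIP: Lipschitz elements -/

set_option autoImplicit false

noncomputable section

namespace Run7.h745.AH

open Filter Topology Matrix Pool.Agent.H188R3 Pool.Agent.TH249

/-- Lipschitz functions -/
def lipAlg (Y : Type) [MetricSpace Y] [CompactSpace Y] : StarSubalgebra ℂ C(Y, ℂ) where
  carrier := {f | ∃ C : ℝ, ∀ y y', ‖f y - f y'‖ ≤ C * dist y y'}
  mul_mem' := by
    rintro f g ⟨C, hC⟩ ⟨D, hD⟩
    refine ⟨‖f‖ * D + ‖g‖ * C, fun y y' => ?_⟩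
    have h : (f * g) y - (f * g) y' = f y * (g y - g y') + (f y - f y') * g y' := by
      simp only [ContinuousMap.mul_apply]
      ring
    rw [h]
    refine (norm_add_le _ _).trans ?_
    rw [norm_mul, norm_mul]
    have h5 : ‖f y‖ * ‖g y - g y'‖ ≤ ‖f‖ * (D * dist y y') :=
      mul_le_mul (f.norm_coe_le_norm y) (hD y y') (norm_nonneg _) (norm_nonneg _)
    have h6 : ‖f y - f y'‖ * ‖g y'‖ ≤ (C * dist y y') * ‖g‖ :=
      mul_le_mul (hC y y') (g.norm_coe_le_norm y') (norm_nonneg _) ((norm_nonneg _).trans (hC y y'))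
    calc _ ≤ ‖f‖ * (D * dist y y') + (C * dist y y') * ‖g‖ := add_le_add h5 h6
      _ = _ := by ring
  add_mem' := by
    rintro f g ⟨C, hC⟩ ⟨D, hD⟩
    refine ⟨C + D, fun y y' => ?_⟩
    have h : (f + g) y - (f + g) y' = (f y - f y') + (g y - g y') := by
      simp only [ContinuousMap.add_apply]
      ring
    rw [h, add_mul]
    exact (norm_add_le _ _).trans (add_le_add (hC y y') (hD y y'))
  algebraMap_mem' c := ⟨0, fun y y' => by simp⟩
  star_mem' := by
    rintro f ⟨C, hC⟩
    refine ⟨C, fun y y' => ?_⟩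
    have h : (star f) y - (star f) y' = star (f y - f y') := by
      simp only [ContinuousMap.star_apply, star_sub]
    rw [h, norm_star]
    exact hC y y'

lemma lip_dense {Y : Type} [MetricSpace Y] [CompactSpace Y] (f : C(Y, ℂ)) {δ : ℝ} (hδ : 0 < δ) :
    ∃ g : C(Y, ℂ), ‖f - g‖ < δ ∧ ∃ C : ℝ, ∀ y y', ‖g y - g y'‖ ≤ C * dist y y' := by
  have htop : (lipAlg Y).topologicalClosure = ⊤ := by
    apply ContinuousMap.starSubalgebra_topologicalClosure_eq_top_of_separatesPoints
    intro y y' hne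
    refine ⟨fun z => ((dist z y : ℝ) : ℂ), ⟨⟨fun z => ((dist z y : ℝ) : ℂ), by fun_prop⟩, ?_, rfl⟩, ?_⟩
    · show ∃ C : ℝ, ∀ z z' : Y, ‖((dist z y : ℝ) : ℂ) - ((dist z' y : ℝ) : ℂ)‖ ≤ C * dist z z'
      refine ⟨1, fun z z' => ?_⟩
      rw [← Complex.ofReal_sub, Complex.norm_real, one_mul, Real.norm_eq_abs]
      exact abs_dist_sub_le z z' y
    · intro h
      have h1 : ((dist y y : ℝ) : ℂ) = ((dist y' y : ℝ) : ℂ) := h
      rw [dist_self, Complex.ofReal_inj] at h1
      exact hne (dist_eq_zero.1 h1.symm).symm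
  have hf : f ∈ closure ((lipAlg Y : StarSubalgebra ℂ C(Y, ℂ)) : Set C(Y, ℂ)) := by
    rw [← StarSubalgebra.topologicalClosure_coe, htop]
    trivial
  rw [Metric.mem_closure_iff] at hf
  obtain ⟨g, hg, hfg⟩ := hf δ hδ
  rw [dist_eq_norm] at hfg
  exact ⟨g, hfg, hg⟩

lemma norm_MA_le {I : Type} [Fintype I] [DecidableEq I] (x : MA I ℂ) (δ : ℝ)
    (h : ∀ i j, ‖x.en i j‖ ≤ δ) : ‖x‖ ≤ δ * ∑ i, ∑ j, ‖(MA.unit i j : MA I ℂ)‖ := by
  conv_lhs => rw [MA.eq_sum_unit x]
  refine (norm_sum_le _ _).trans ?_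
  rw [Finset.mul_sum]
  refine Finset.sum_le_sum fun i _ => ?_
  refine (norm_sum_le _ _).trans ?_
  rw [Finset.mul_sum]
  refine Finset.sum_le_sum fun j _ => ?_
  rw [norm_smul]
  exact mul_le_mul_of_nonneg_right (h i j) (norm_nonneg _)

lemma continuous_en {I : Type} [Fintype I] [DecidableEq I] (i j : I) :
    Continuous fun x : MA I ℂ => x.en i j := by
  have h1 : Continuous fun x : Matrix I I ℂ => x i j :=
    (continuous_apply j).comp (continuous_apply i)
  exact h1

lemma continuous_of {Y : Type} [TopologicalSpace Y] {I : Type} [Fintype I] [DecidableEq I]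
    (g : I → I → Y → ℂ) (hg : ∀ i j, Continuous (g i j)) :
    Continuous fun y => (MA.of fun i j => g i j y : MA I ℂ) := by
  have h1 : Continuous fun y => (show Matrix I I ℂ from fun i j => g i j y) :=
    continuous_pi fun i => continuous_pi fun j => hg i j
  exact h1

lemma lam_lip (s : ℕ → Bool) (n t' : ℕ) (σ : Slot s n t') (y y' : X (n + 1) t') :
    dist (lam s n t' σ y) (lam s n t' σ y') ≤ dist y y' := by
  rcases σ with ⟨_, j⟩ | _ | c
  · show dist (blk n t' j y) (blk n t' j y') ≤ dist y y'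
    rw [dist_pi_le_iff dist_nonneg]
    intro i
    exact dist_le_pi_dist y y' (finProdFinEquiv (j, i))
  · show dist (x0 n 0) (x0 n 0) ≤ dist y y'
    rw [dist_self]
    exact dist_nonneg
  · show dist (pt n c.1) (pt n c.1) ≤ dist y y'
    rw [dist_self]
    exact dist_nonneg

lemma φ_lip (s : ℕ → Bool) (n : ℕ) (a : A s n) (ha : IsLip a) : IsLip (φ s n a) := by
  obtain ⟨C, hC⟩ := ha
  refine ⟨|C|, fun t' y y' p p' => ?_⟩
  rw [φ_apply, φ_apply, bd_en, bd_en, Matrix.blockDiagonal'_apply, Matrix.blockDiagonal'_apply]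
  split_ifs with h
  · refine (hC _ _ _ _ _).trans ?_
    refine (mul_le_mul_of_nonneg_right (le_abs_self C) dist_nonneg).trans ?_
    exact mul_le_mul_of_nonneg_left (lam_lip _ _ _ _ _ _) (abs_nonneg C)
  · simp only [sub_self, norm_zero]
    positivity

theorem t_LIP : S_LIP := by
  refine ⟨fun s n a ε hε => ?_, fun s m n a hmn ha => ?_, fun s m n a t hmn hmt y y' => ?_⟩
  · have hM : (0 : ℝ) < 1 + ∑ t : Fin (n + 1), ∑ i, ∑ j, ‖(MA.unit i j : MA (Fin (N s n t)) ℂ)‖ := by
      positivity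
    obtain ⟨M, hMe⟩ : ∃ M : ℝ, M = 1 + ∑ t : Fin (n + 1), ∑ i, ∑ j, ‖(MA.unit i j : MA (Fin (N s n t)) ℂ)‖ :=
      ⟨_, rfl⟩
    rw [← hMe] at hM
    obtain ⟨δ, hδe⟩ : ∃ δ : ℝ, δ = ε / (2 * M) := ⟨_, rfl⟩
    have hδ : 0 < δ := by rw [hδe]; positivity
    have key : ∀ (t : Fin (n + 1)) (p p' : Fin (N s n t)), ∃ g : C(X n t, ℂ),
        ‖(⟨fun y => (a t y).en p p', (continuous_en p p').comp (a t).continuous⟩ : C(X n t, ℂ)) - g‖ < δ ∧
        ∃ C : ℝ, ∀ y y', ‖g y - g y'‖ ≤ C * dist y y' := fun t p p' => lip_dense _ hδ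
    choose g hg C hC using key
    refine ⟨fun t => ⟨fun y => MA.of fun p p' => g t p p' y,
      continuous_of _ fun p p' => (g t p p').continuous⟩, ?_, ?_⟩
    · rw [pi_norm_lt_iff hε]
      intro t
      have h1 : ∀ y, ‖a t y - MA.of fun p p' => g t p p' y‖ ≤ δ * M := by
        intro y
        refine (norm_MA_le _ δ fun i j => ?_).trans ?_
        · have h2 := ContinuousMap.norm_coe_le_norm ((⟨fun y => (a t y).en i j,
            (continuous_en i j).comp (a t).continuous⟩ : C(X n t, ℂ)) - g t i j) y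
          exact h2.trans (hg t i j).le
        · apply mul_le_mul_of_nonneg_left _ hδ.le
          rw [hMe]
          have h3 := Finset.single_le_sum (f := fun t : Fin (n + 1) => ∑ i, ∑ j,
            ‖(MA.unit i j : MA (Fin (N s n t)) ℂ)‖) (fun t _ => by positivity) (Finset.mem_univ t)
          have h4 : ∑ i, ∑ j, ‖(MA.unit i j : MA (Fin (N s n t)) ℂ)‖ ≤
            ∑ t : Fin (n + 1), ∑ i, ∑ j, ‖(MA.unit i j : MA (Fin (N s n t)) ℂ)‖ := h3
          linarith
      have h5 : δ * M = ε / 2 := by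
        rw [hδe]
        field_simp
      have h6 : ‖a t - ⟨fun y => MA.of fun p p' => g t p p' y,
          continuous_of _ fun p p' => (g t p p').continuous⟩‖ ≤ ε / 2 := by
        rw [ContinuousMap.norm_le _ (by positivity)]
        intro y
        rw [← h5]
        exact h1 y
      have h7 : ε / 2 < ε := half_lt_self hε
      exact h6.trans_lt h7
    · refine ⟨∑ t : Fin (n + 1), ∑ p, ∑ p', |C t p p'|, fun t y y' p p' => ?_⟩
      refine (hC t p p' y y').trans ?_
      apply mul_le_mul_of_nonneg_right _ dist_nonneg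
      refine (le_abs_self _).trans ?_
      have h1 := Finset.single_le_sum (f := fun t : Fin (n + 1) => ∑ p, ∑ p', |C t p p'|)
        (fun t _ => by positivity) (Finset.mem_univ t)
      have h2 := Finset.single_le_sum (f := fun p => ∑ p', |C t p p'|)
        (fun t _ => by positivity) (Finset.mem_univ p)
      have h3 := Finset.single_le_sum (f := fun p' => |C t p p'|)
        (fun t _ => by positivity) (Finset.mem_univ p')
      exact h3.trans (h2.trans h1)
  · induction n, hmn using Nat.le_induction with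
    | base => rwa [trans_self]
    | succ n hn ih =>
      rw [trans_succ _ hn]
      exact φ_lip s n _ ih
  · induction n, hmn using Nat.le_induction with
    | base => exact absurd t.2 (by omega)
    | succ n hn ih =>
      rw [trans_succ _ hn, φ_apply, φ_apply]
      congr 1
      funext σ
      rcases σ with ⟨h, j⟩ | _ | c
      · have h1 : m < ((src s n t (Sum.inl (h, j))) : ℕ) := hmt
        exact ih _ h1 _ _
      · rfl
      · rfl

end Run7.h745.AH
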