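import Pool.Agent.Run7.h803.AH.TS
import Pool.Agent.Run7.h803.AH.LIP

/-! # Pieces MONO and TR: tracial states and the centre-valued trace -/

set_option autoImplicit false

noncomputable section

namespace Run7.h745.AH

open Filter Topology Matrix Pool.Agent.H188R3 Pool.Agent.TH249

/-! ### The normalised trace of matrices -/

section ntr
variable {I : Type} [Fintype I] [DecidableEq I]

lemma continuous_ntr : Continuous fun x : MA I ℂ => ntr x := by
  unfold ntr
  exact (continuous_finsetSum _ fun i _ => continuous_en i i).div_const _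

lemma ntr_add (x y : MA I ℂ) : ntr (x + y) = ntr x + ntr y := by
  unfold ntr
  simp only [MA.en_add, Finset.sum_add_distrib, add_div]

lemma ntr_smul (c : ℂ) (x : MA I ℂ) : ntr (c • x) = c * ntr x := by
  unfold ntr
  simp only [MA.en_smul, smul_eq_mul]
  rw [← Finset.mul_sum, mul_div_assoc]

lemma ntr_sub (x y : MA I ℂ) : ntr (x - y) = ntr x - ntr y := by
  unfold ntr
  simp only [MA.en_sub, Finset.sum_sub_distrib, sub_div]

lemma ntr_comm (x y : MA I ℂ) : ntr (x * y) = ntr (y * x) := by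
  unfold ntr
  simp only [MA.en_mul]
  rw [Finset.sum_comm]
  congr 1
  exact Finset.sum_congr rfl fun i _ => Finset.sum_congr rfl fun k _ => mul_comm _ _

lemma ntr_algebraMap [Nonempty I] (c : ℂ) : ntr (algebraMap ℂ (MA I ℂ) c) = c := by
  unfold ntr
  simp only [MA.en_algebraMap, if_true, Algebra.algebraMap_self, RingHom.id_apply]
  rw [Finset.sum_const, Finset.card_univ, nsmul_eq_mul]
  have : (Fintype.card I : ℂ) ≠ 0 := by exact_mod_cast Fintype.card_ne_zero
  field_simp

lemma ntr_star_mul (x : MA I ℂ) :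
    ntr (star x * x) = (((∑ i, ∑ k, ‖x.en k i‖ ^ 2) / (Fintype.card I : ℝ) : ℝ) : ℂ) := by
  unfold ntr
  simp only [MA.en_mul, MA.en_star]
  push_cast
  congr 1
  refine Finset.sum_congr rfl fun i _ => Finset.sum_congr rfl fun k _ => ?_
  rw [Complex.star_def, mul_comm, Complex.mul_conj, Complex.normSq_eq_norm_sq]
  push_cast
  rfl

end ntr

section
variable {s : ℕ → Bool} {n : ℕ}

/-- entries as functions -/
def enC (a : A s n) (t : Fin (n + 1)) (p q : Fin (N s n t)) : C(X n t, ℂ) :=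
  ⟨fun y => (a t y).en p q, (continuous_en p q).comp (a t).continuous⟩

/-- the centre-valued trace -/
def ntC : A s n →ₗ[ℂ] (∀ t : Fin (n + 1), C(X n t, ℂ)) where
  toFun a t := ⟨fun y => nt a t y, continuous_ntr.comp (a t).continuous⟩
  map_add' a b := by
    funext t
    ext y
    exact ntr_add (a t y) (b t y)
  map_smul' c a := by
    funext t
    ext y
    exact ntr_smul c (a t y)

lemma ntC_apply (a : A s n) (t : Fin (n + 1)) (y : X n t) : ntC a t y = nt a t y := rfl

/-- functions as central elements -/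
def ce (s : ℕ → Bool) (n : ℕ) : (∀ t : Fin (n + 1), C(X n t, ℂ)) →ₗ[ℂ] A s n where
  toFun h t := ⟨fun y => algebraMap ℂ (MA (Fin (N s n t)) ℂ) (h t y),
    (algebraMapCLM ℂ _).continuous.comp (h t).continuous⟩
  map_add' h h' := by
    funext t
    ext1 y
    exact map_add (algebraMap ℂ (MA (Fin (N s n t)) ℂ)) (h t y) (h' t y)
  map_smul' c h := by
    funext t
    ext1 y
    show algebraMap ℂ (MA (Fin (N s n t)) ℂ) (c * h t y) =
      c • algebraMap ℂ (MA (Fin (N s n t)) ℂ) (h t y)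
    rw [map_mul, Algebra.smul_def]

lemma ce_apply (h : ∀ t : Fin (n + 1), C(X n t, ℂ)) (t : Fin (n + 1)) (y : X n t) :
    ce s n h t y = algebraMap ℂ (MA (Fin (N s n t)) ℂ) (h t y) := rfl

lemma nt_ce (h : ∀ t : Fin (n + 1), C(X n t, ℂ)) (t : Fin (n + 1)) (y : X n t) :
    nt (ce s n h) t y = h t y := by
  unfold nt
  rw [ce_apply, ntr_algebraMap]

/-- `h` at the matrix position `(p, q)` of the component `t` -/
def eu (s : ℕ → Bool) (n : ℕ) (t : Fin (n + 1)) (p q : Fin (N s n t)) :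
    C(X n t, ℂ) →ₗ[ℂ] A s n where
  toFun h := Pi.single t ⟨fun y => h y • MA.unit p q, h.continuous.smul continuous_const⟩
  map_add' h h' := by
    rw [← Pi.single_add]
    congr 1
    ext1 y
    exact add_smul (h y) (h' y) _
  map_smul' c h := by
    rw [RingHom.id_apply, ← Pi.single_smul]
    congr 1
    ext1 y
    exact mul_smul c (h y) _

lemma eu_mul (t : Fin (n + 1)) (p q q' r : Fin (N s n t)) (h h' : C(X n t, ℂ)) :
    eu s n t p q h * eu s n t q' r h' = if q = q' then eu s n t p r (h * h') else 0 := by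
  show Pi.single t _ * Pi.single t _ = _
  rw [← Pi.single_mul]
  split_ifs with hq
  · show _ = Pi.single t _
    congr 1
    ext1 y
    show (h y • MA.unit p q) * (h' y • MA.unit q' r) = (h y * h' y) • MA.unit p r
    rw [smul_mul_smul_comm, MA.unit_mul, if_pos hq]
  · rw [← Pi.single_zero t]
    congr 1
    ext1 y
    show (h y • MA.unit p q) * (h' y • MA.unit q' r) = 0
    rw [smul_mul_smul_comm, MA.unit_mul, if_neg hq, smul_zero]

lemma eq_sum_eu (a : A s n) : a = ∑ t, ∑ p, ∑ q, eu s n t p q (enC a t p q) := by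
  conv_lhs => rw [← Finset.univ_sum_single a]
  refine Finset.sum_congr rfl fun t _ => ?_
  have h1 : a t = ∑ p, ∑ q, (⟨fun y => enC a t p q y • MA.unit p q,
      (enC a t p q).continuous.smul continuous_const⟩ : C(X n t, MA (Fin (N s n t)) ℂ)) := by
    ext1 y
    rw [ContinuousMap.sum_apply]
    simp only [ContinuousMap.sum_apply]
    exact MA.eq_sum_unit (a t y)
  conv_lhs => rw [h1]
  have h2 : ∀ g : C(X n t, MA (Fin (N s n t)) ℂ), Pi.single (M := fun t : Fin (n + 1) =>
      C(X n t, MA (Fin (N s n t)) ℂ)) t g = AddMonoidHom.single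
      (fun t : Fin (n + 1) => C(X n t, MA (Fin (N s n t)) ℂ)) t g := fun _ => rfl
  rw [h2, map_sum]
  refine Finset.sum_congr rfl fun p _ => ?_
  rw [map_sum]
  rfl

lemma ts_eu_ne (τ : TracialState (A s n)) (t : Fin (n + 1)) {p q : Fin (N s n t)} (hpq : p ≠ q)
    (h : C(X n t, ℂ)) : τ.val (eu s n t p q h) = 0 := by
  have h1 : eu s n t p q h = eu s n t p p 1 * eu s n t p q h := by
    rw [eu_mul, if_pos rfl, one_mul]
  rw [h1, τ.comm, eu_mul, if_neg (Ne.symm hpq), map_zero]

lemma ts_eu_eq (τ : TracialState (A s n)) (t : Fin (n + 1)) (p q : Fin (N s n t))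
    (h : C(X n t, ℂ)) : τ.val (eu s n t p p h) = τ.val (eu s n t q q h) := by
  have h1 : eu s n t p p h = eu s n t p q h * eu s n t q p 1 := by
    rw [eu_mul, if_pos rfl, mul_one]
  rw [h1, τ.comm, eu_mul, if_pos rfl, one_mul]

lemma ts_formula (τ : TracialState (A s n)) (a : A s n) :
    τ.val a = ∑ t : Fin (n + 1), τ.val (eu s n t ⟨0, N_pos s n t⟩ ⟨0, N_pos s n t⟩
      ((N s n t : ℂ) • ntC a t)) := by
  conv_lhs => rw [eq_sum_eu a]
  rw [map_sum]
  refine Finset.sum_congr rfl fun t _ => ?_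
  rw [map_sum]
  have h1 : ∀ p : Fin (N s n t), τ.val (∑ q, eu s n t p q (enC a t p q)) =
      τ.val (eu s n t ⟨0, N_pos s n t⟩ ⟨0, N_pos s n t⟩ (enC a t p p)) := by
    intro p
    rw [map_sum, Finset.sum_eq_single p]
    · exact ts_eu_eq τ t _ _ _
    · intro q _ hq
      exact ts_eu_ne τ t (Ne.symm hq) _
    · simp
  rw [Finset.sum_congr rfl fun p _ => h1 p, ← map_sum, ← map_sum]
  congr 2
  ext1 y
  rw [ContinuousMap.sum_apply]
  show ∑ p, (a t y).en p p = (N s n t : ℂ) * ((∑ i, (a t y).en i i) / (Fintype.card (Fin (N s n t)) : ℂ))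
  rw [Fintype.card_fin]
  have : (N s n t : ℂ) ≠ 0 := by exact_mod_cast (N_pos s n t).ne'
  field_simp

/-- a tracial state only depends on the centre-valued trace -/
lemma ts_nt (τ : TracialState (A s n)) {a b : A s n} (h : ∀ t y, nt a t y = nt b t y) :
    τ.val a = τ.val b := by
  rw [ts_formula τ a, ts_formula τ b]
  refine Finset.sum_congr rfl fun t _ => ?_
  congr 3
  ext1 y
  exact h t y

/-- square roots -/
lemma exists_root (g : ∀ t : Fin (n + 1), X n t → ℝ) (hg : ∀ t, Continuous (g t))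
    (h0 : ∀ t y, 0 ≤ g t y) : ∃ x : A s n, ∀ t y, nt (star x * x) t y = (g t y : ℂ) := by
  refine ⟨ce s n fun t => ⟨fun y => ((Real.sqrt (g t y) : ℝ) : ℂ),
    Complex.continuous_ofReal.comp (Real.continuous_sqrt.comp (hg t))⟩, fun t y => ?_⟩
  unfold nt
  show ntr (star (algebraMap ℂ (MA (Fin (N s n t)) ℂ) ((Real.sqrt (g t y) : ℝ) : ℂ)) *
    algebraMap ℂ (MA (Fin (N s n t)) ℂ) ((Real.sqrt (g t y) : ℝ) : ℂ)) = _
  rw [← algebraMap_star_comm, ← map_mul, ntr_algebraMap, Complex.star_def, Complex.conj_ofReal,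
    ← Complex.ofReal_mul, Real.mul_self_sqrt (h0 t y)]

lemma ts_nonneg (τ : TracialState (A s n)) (a : A s n)
    (h : ∀ t y, 0 ≤ (nt a t y).re ∧ (nt a t y).im = 0) : 0 ≤ (τ.val a).re ∧ (τ.val a).im = 0 := by
  obtain ⟨x, hx⟩ := exists_root (s := s) (fun t y => (nt a t y).re)
    (fun t => Complex.continuous_re.comp (ntC a t).continuous) (fun t y => (h t y).1)
  have h1 : τ.val a = τ.val (star x * x) := by
    refine ts_nt τ fun t y => ?_
    rw [hx]
    exact Complex.ext (by simp) (by simp [(h t y).2])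
  rw [h1]
  exact τ.nonneg x

lemma ts_mono (τ : TracialState (A s n)) (a b : A s n)
    (h : ∀ t y, (nt a t y).re ≤ (nt b t y).re) : (τ.val a).re ≤ (τ.val b).re := by
  let gr : ∀ t : Fin (n + 1), C(X n t, ℂ) := fun t =>
    ⟨fun y => (((nt b t y).re - (nt a t y).re : ℝ) : ℂ), Complex.continuous_ofReal.comp
      ((Complex.continuous_re.comp (ntC b t).continuous).sub
        (Complex.continuous_re.comp (ntC a t).continuous))⟩
  let gi : ∀ t : Fin (n + 1), C(X n t, ℂ) := fun t =>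
    ⟨fun y => (((nt b t y).im - (nt a t y).im : ℝ) : ℂ), Complex.continuous_ofReal.comp
      ((Complex.continuous_im.comp (ntC b t).continuous).sub
        (Complex.continuous_im.comp (ntC a t).continuous))⟩
  have h1 : τ.val (b - a) = τ.val (ce s n gr + Complex.I • ce s n gi) := by
    refine ts_nt τ fun t y => ?_
    have e1 : nt (b - a) t y = nt b t y - nt a t y := ntr_sub _ _
    have e2 : nt (ce s n gr + Complex.I • ce s n gi) t y =
        nt (ce s n gr) t y + Complex.I * nt (ce s n gi) t y := by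
      show ntr _ = _
      have : (ce s n gr + Complex.I • ce s n gi) t y = ce s n gr t y + Complex.I • ce s n gi t y := rfl
      rw [this, ntr_add, ntr_smul]
      rfl
    rw [e1, e2, nt_ce, nt_ce]
    show _ = (((nt b t y).re - (nt a t y).re : ℝ) : ℂ) +
      Complex.I * (((nt b t y).im - (nt a t y).im : ℝ) : ℂ)
    apply Complex.ext <;> simp
  have h2 := ts_nonneg τ (ce s n gr) (fun t y => by
    rw [nt_ce]
    show 0 ≤ ((((nt b t y).re - (nt a t y).re : ℝ) : ℂ)).re ∧
      ((((nt b t y).re - (nt a t y).re : ℝ) : ℂ)).im = 0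
    rw [Complex.ofReal_re, Complex.ofReal_im]
    exact ⟨sub_nonneg.2 (h t y), rfl⟩)
  have h3 : (τ.val (ce s n gi)).im = 0 := by
    have h4 : star (ce s n gi) = ce s n gi := by
      funext t
      ext1 y
      show star (algebraMap ℂ (MA (Fin (N s n t)) ℂ) (((nt b t y).im - (nt a t y).im : ℝ) : ℂ)) =
        algebraMap ℂ (MA (Fin (N s n t)) ℂ) (((nt b t y).im - (nt a t y).im : ℝ) : ℂ)
      rw [← algebraMap_star_comm, Complex.star_def, Complex.conj_ofReal]
    have h5 := ts_star τ (ce s n gi)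
    rw [h4, Complex.star_def] at h5
    exact Complex.conj_eq_iff_im.1 h5.symm
  rw [map_sub, map_add, map_smul, smul_eq_mul] at h1
  have h6 := congrArg Complex.re h1
  rw [Complex.sub_re, Complex.add_re, Complex.I_mul_re, h3, neg_zero, add_zero] at h6
  linarith [h2.1]

theorem t_MONO : S_MONO := by
  intro s L _ j hj τ n a b h
  exact ts_mono (ts_comp τ (j n)) a b h

/-- transport of a tracial state between the levels `n` of two systems -/
def push {s' : ℕ → Bool} (τ : TracialState (A s' n)) : TracialState (A s n) where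
  val := τ.val.comp ((ce s' n).comp ntC)
  map_one := by
    show τ.val (ce s' n (ntC 1)) = 1
    rw [← τ.map_one]
    refine ts_nt τ fun t y => ?_
    rw [nt_ce, ntC_apply]
    show ntr (1 : MA (Fin (N s n t)) ℂ) = ntr (1 : MA (Fin (N s' n t)) ℂ)
    rw [← map_one (algebraMap ℂ (MA (Fin (N s n t)) ℂ)), ntr_algebraMap,
      ← map_one (algebraMap ℂ (MA (Fin (N s' n t)) ℂ)), ntr_algebraMap]
  nonneg x := by
    refine ts_nonneg τ _ fun t y => ?_
    show 0 ≤ (nt (ce s' n (ntC (star x * x))) t y).re ∧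
      (nt (ce s' n (ntC (star x * x))) t y).im = 0
    rw [nt_ce, ntC_apply]
    show 0 ≤ (ntr (star (x t y) * (x t y))).re ∧ (ntr (star (x t y) * (x t y))).im = 0
    rw [ntr_star_mul, Complex.ofReal_re, Complex.ofReal_im]
    exact ⟨by positivity, rfl⟩
  comm x y := by
    refine ts_nt τ fun t z => ?_
    show nt (ce s' n (ntC (x * y))) t z = nt (ce s' n (ntC (y * x))) t z
    rw [nt_ce, nt_ce, ntC_apply, ntC_apply]
    exact ntr_comm _ _

lemma push_val {s' : ℕ → Bool} (τ : TracialState (A s' n)) (a : A s n) :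
    (push τ : TracialState (A s n)).val a = τ.val (ce s' n (ntC a)) := rfl

end

lemma TRF_eq (hTRF : S_TRF) {s s' : ℕ → Bool} {n : ℕ} {a : A s n} {a' : A s' n}
    (h : ∀ t y, nt a t y = nt a' t y) (t' : Fin (n + 2)) (y : X (n + 1) t') :
    nt (φ s n a) t' y = nt (φ s' n a') t' y := by
  have h1 := hTRF s n a t' y
  have h2 := hTRF s' n a' t' y
  have hne : ((q n : ℂ) + 4 * (n + 1) ^ 3) ≠ 0 := by
    have : (0 : ℝ) < (q n : ℝ) + 4 * (n + 1) ^ 3 := by positivity
    have h3 : ((q n : ℂ) + 4 * (n + 1) ^ 3) = (((q n : ℝ) + 4 * (n + 1) ^ 3 : ℝ) : ℂ) := by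
      push_cast
      rfl
    rw [h3]
    exact_mod_cast this.ne'
  have h3 : nt (φ s n a) t' y * ((q n : ℂ) + 4 * (n + 1) ^ 3) =
      nt (φ s' n a') t' y * ((q n : ℂ) + 4 * (n + 1) ^ 3) := by
    rw [h1, h2]
    congr 1
    · split_ifs with ht
      · exact Finset.sum_congr rfl fun i _ => h _ _
      · rw [h 0 (x0 n 0)]
    · congr 1
      exact Finset.sum_congr rfl fun c _ => h _ _
  exact mul_right_cancel₀ hne h3

section TR
variable {s s' : ℕ → Bool} {L : Type} [CStarAlgebra L] {j : ∀ n, A s n →⋆ₐ[ℂ] L}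
  {L' : Type} [CStarAlgebra L'] {j' : ∀ n, A s' n →⋆ₐ[ℂ] L'}

lemma TR_ex (hTRF : S_TRF) (h : IsLim (φ s) j) (h' : IsLim (φ s') j') (τ' : TracialState L') :
    ∃ τ : TracialState L, ∀ n (a : A s n), τ.val (j n a) = τ'.val (j' n (ce s' n (ntC a))) := by
  obtain ⟨τ, hτ⟩ := ts_lim h (fun n => (push (ts_comp τ' (j' n)) : TracialState (A s n)))
    (fun n x => by
      rw [push_val, push_val, ts_comp_val τ' (j' n), ← h'.comp, ← ts_comp_val τ' (j' (n + 1))]
      refine ts_nt _ fun t y => ?_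
      rw [nt_ce, ntC_apply]
      exact TRF_eq hTRF (fun t y => by rw [nt_ce, ntC_apply]) t y)
  exact ⟨τ, hτ⟩

theorem t_TR (hTRF : S_TRF) : S_TR := by
  intro s s' L _ j L' _ j' h h'
  choose Φ hΦ using TR_ex hTRF h h'
  choose Ψ hΨ using TR_ex hTRF h' h
  have cont : ∀ {s s' : ℕ → Bool} {L : Type} [CStarAlgebra L] {j : ∀ n, A s n →⋆ₐ[ℂ] L}
      {L' : Type} [CStarAlgebra L'] {j' : ∀ n, A s' n →⋆ₐ[ℂ] L'} (_ : IsLim (φ s) j)
      (Φ : TracialState L' → TracialState L)
      (_ : ∀ τ' n (a : A s n), (Φ τ').val (j n a) = τ'.val (j' n (ce s' n (ntC a)))),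
      Continuous Φ := by
    intro s s' L _ j L' _ j' h Φ hΦ
    refine continuous_induced_rng.2 (continuous_pi fun y => ?_)
    refine continuous_of_uniform_approx_of_continuous fun u hu => ?_
    obtain ⟨ε, hε, hεu⟩ := Metric.mem_uniformity_dist.1 hu
    obtain ⟨n, x, hx⟩ := h.dense y ε hε
    refine ⟨fun τ' => τ'.val (j' n (ce s' n (ntC x))),
      (continuous_apply (j' n (ce s' n (ntC x)))).comp continuous_induced_dom, fun τ' => ?_⟩
    apply hεu
    show dist ((Φ τ').val y) (τ'.val (j' n (ce s' n (ntC x)))) < ε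
    rw [← hΦ, dist_eq_norm, ← map_sub]
    exact (ts_norm _ _).trans_lt hx
  have inv : ∀ {s s' : ℕ → Bool} {L : Type} [CStarAlgebra L] {j : ∀ n, A s n →⋆ₐ[ℂ] L}
      {L' : Type} [CStarAlgebra L'] {j' : ∀ n, A s' n →⋆ₐ[ℂ] L'} (_ : IsLim (φ s) j)
      (Φ : TracialState L' → TracialState L)
      (_ : ∀ τ' n (a : A s n), (Φ τ').val (j n a) = τ'.val (j' n (ce s' n (ntC a))))
      (Ψ : TracialState L → TracialState L')
      (_ : ∀ τ n (a : A s' n), (Ψ τ).val (j' n a) = τ.val (j n (ce s n (ntC a)))) (τ : TracialState L),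
      Φ (Ψ τ) = τ := by
    intro s s' L _ j L' _ j' h Φ hΦ Ψ hΨ τ
    refine ts_ext_lim h fun n x => ?_
    rw [hΦ, hΨ, ← ts_comp_val τ (j n), ← ts_comp_val τ (j n)]
    refine ts_nt _ fun t y => ?_
    rw [nt_ce, ntC_apply, nt_ce, ntC_apply]
  refine ⟨{ toFun := Φ, invFun := Ψ, left_inv := fun τ => inv h' Ψ hΨ Φ hΦ τ,
            right_inv := fun τ => inv h Φ hΦ Ψ hΨ τ, continuous_toFun := cont h Φ hΦ,
            continuous_invFun := cont h' Ψ hΨ }, ?_, ?_⟩
  · intro c σ τ ρ _ _ hρ x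
    show (Φ ρ).val x = (c : ℂ) * (Φ σ).val x + ((1 - c : ℝ) : ℂ) * (Φ τ).val x
    refine (lim_denseRange h).induction_on (p := fun x => (Φ ρ).val x = (c : ℂ) * (Φ σ).val x +
      ((1 - c : ℝ) : ℂ) * (Φ τ).val x) x ?_ fun p => ?_
    · exact isClosed_eq (ts_cont _) ((continuous_const.mul (ts_cont _)).add
        (continuous_const.mul (ts_cont _)))
    · show (Φ ρ).val (j p.1 p.2) = (c : ℂ) * (Φ σ).val (j p.1 p.2) +
        ((1 - c : ℝ) : ℂ) * (Φ τ).val (j p.1 p.2)
      rw [hΦ, hΦ, hΦ]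
      exact hρ _
  · intro τ n a a' haa
    show (Φ τ).val (j n a) = τ.val (j' n a')
    rw [hΦ, ← ts_comp_val τ (j' n), ← ts_comp_val τ (j' n)]
    refine ts_nt _ fun t y => ?_
    rw [nt_ce, ntC_apply]
    exact haa t y

end TR

end Run7.h745.AH
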