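import Pool.Agent.Run7.h745.AH.Iface

/-! # Tracial states: norm bound, uniqueness, extension to inductive limits -/

set_option autoImplicit false
set_option linter.unusedSectionVars false
set_option linter.style.haveILetI false

noncomputable section

namespace Run7.h745.AH

open Filter Topology Matrix Pool.Agent.H188R3 Pool.Agent.TH249

section tracial
variable {B : Type} [CStarAlgebra B]

lemma ts_ext {τ τ' : TracialState B} (h : ∀ x, τ.val x = τ'.val x) : τ = τ' := by
  cases τ; cases τ'
  congr 1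
  exact LinearMap.ext h

lemma ts_star (τ : TracialState B) (x : B) : τ.val (star x) = star (τ.val x) := by
  have h1 := (τ.nonneg (x + 1)).2
  have h2 := (τ.nonneg (x + Complex.I • 1)).2
  have h3 := (τ.nonneg x).2
  have e1 : star (x + 1) * (x + 1) = star x * x + star x + x + 1 := by
    rw [star_add, star_one]
    noncomm_ring
  have e2 : star (x + Complex.I • 1) * (x + Complex.I • 1) =
      star x * x + Complex.I • star x - Complex.I • x + 1 := by
    rw [star_add, star_smul, star_one, add_mul, mul_add, mul_add, mul_smul_comm, mul_one,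
      smul_mul_assoc, one_mul, smul_mul_smul_comm, Complex.star_def, Complex.conj_I, mul_one,
      neg_mul, Complex.I_mul_I, neg_neg, one_smul, neg_smul]
    abel
  rw [e1, map_add, map_add, map_add, τ.map_one] at h1
  rw [e2, map_add, map_sub, map_add, map_smul, map_smul, τ.map_one] at h2
  simp only [Complex.add_im, Complex.sub_im, Complex.one_im, smul_eq_mul, Complex.I_mul_im,
    add_zero] at h1 h2
  rw [Complex.star_def]
  apply Complex.ext
  · rw [Complex.conj_re]
    linarith
  · rw [Complex.conj_im]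
    linarith

lemma ts_cs (τ : TracialState B) (x : B) : ‖τ.val x‖ ^ 2 ≤ (τ.val (star x * x)).re := by
  obtain ⟨c, hc⟩ : ∃ c, c = τ.val x := ⟨_, rfl⟩
  have h := (τ.nonneg (x - c • 1)).1
  have e : star (x - c • 1) * (x - c • 1) =
      star x * x - c • star x - (star c) • x + (star c * c) • 1 := by
    rw [star_sub, star_smul, star_one, sub_mul, mul_sub, mul_sub, mul_smul_comm, mul_one,
      smul_mul_assoc, one_mul, smul_mul_smul_comm, mul_one]
    abel
  rw [e, map_add, map_sub, map_sub, map_smul, map_smul, map_smul, τ.map_one, ts_star, ← hc] at h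
  have e2 : (τ.val (star x * x) - c • star c - star c • c + (star c * c) • (1 : ℂ)) =
      τ.val (star x * x) - ((‖c‖ ^ 2 : ℝ) : ℂ) := by
    have h5 : star c * c = ((‖c‖ ^ 2 : ℝ) : ℂ) := by
      rw [Complex.star_def, mul_comm, Complex.mul_conj, Complex.normSq_eq_norm_sq]
    rw [smul_eq_mul, smul_eq_mul, smul_eq_mul, mul_comm c (star c), h5]
    ring
  rw [e2, Complex.sub_re, Complex.ofReal_re] at h
  rw [← hc]
  linarith

lemma ts_norm (τ : TracialState B) (x : B) : ‖τ.val x‖ ≤ ‖x‖ := by
  letI : PartialOrder B := CStarAlgebra.spectralOrder B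
  letI : StarOrderedRing B := CStarAlgebra.spectralOrderedRing B
  have h1 : star x * x ≤ algebraMap ℝ B (‖x‖ ^ 2) := CStarAlgebra.star_mul_le_algebraMap_norm_sq
  have h2 : 0 ≤ algebraMap ℝ B (‖x‖ ^ 2) - star x * x := sub_nonneg.2 h1
  obtain ⟨y, hy⟩ := CStarAlgebra.nonneg_iff_eq_star_mul_self.1 h2
  have h3 := (τ.nonneg y).1
  have h4 : algebraMap ℝ B (‖x‖ ^ 2) = ((‖x‖ ^ 2 : ℝ) : ℂ) • (1 : B) := by
    rw [Algebra.algebraMap_eq_smul_one]
    exact (Complex.coe_smul _ _).symm
  rw [← hy, map_sub, h4, map_smul, τ.map_one, smul_eq_mul, mul_one, Complex.sub_re,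
    Complex.ofReal_re] at h3
  have h5 := ts_cs τ x
  have h6 : ‖τ.val x‖ ^ 2 ≤ ‖x‖ ^ 2 := by linarith
  exact (pow_le_pow_iff_left₀ (norm_nonneg _) (norm_nonneg _) two_ne_zero).1 h6

lemma ts_cont (τ : TracialState B) : Continuous fun x => τ.val x :=
  AddMonoidHomClass.continuous_of_bound τ.val 1 fun x => by simpa using ts_norm τ x

/-- pull back -/
def ts_comp {B' : Type} [CStarAlgebra B'] (τ : TracialState B) (f : B' →⋆ₐ[ℂ] B) :
    TracialState B' where
  val := τ.val.comp f.toAlgHom.toLinearMap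
  map_one := by
    show τ.val (f 1) = 1
    rw [map_one, τ.map_one]
  nonneg x := by
    show 0 ≤ (τ.val (f (star x * x))).re ∧ (τ.val (f (star x * x))).im = 0
    rw [map_mul f, map_star f]
    exact τ.nonneg _
  comm x y := by
    show τ.val (f (x * y)) = τ.val (f (y * x))
    rw [map_mul f, map_mul f, τ.comm]

lemma ts_comp_val {B' : Type} [CStarAlgebra B'] (τ : TracialState B) (f : B' →⋆ₐ[ℂ] B) (x : B') :
    (ts_comp τ f).val x = τ.val (f x) := rfl

end tracial

section lim

variable {A : ℕ → Type} [∀ n, CStarAlgebra (A n)] [∀ n, Nontrivial (A n)]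
  {φ : ∀ n, A n →⋆ₐ[ℂ] A (n + 1)} {L : Type} [CStarAlgebra L] {j : ∀ n, A n →⋆ₐ[ℂ] L}

lemma lim_denseRange (h : IsLim φ j) : DenseRange (fun p : Σ n, A n => j p.1 p.2) := by
  intro y
  rw [Metric.mem_closure_iff]
  intro ε hε
  obtain ⟨n, x, hx⟩ := h.dense y ε hε
  exact ⟨j n x, ⟨⟨n, x⟩, rfl⟩, by rwa [dist_eq_norm]⟩

lemma ts_ext_lim (h : IsLim φ j) {τ τ' : TracialState L}
    (hτ : ∀ n x, τ.val (j n x) = τ'.val (j n x)) : τ = τ' := by
  apply ts_ext
  intro y
  exact (lim_denseRange h).induction_on y (isClosed_eq (ts_cont τ) (ts_cont τ'))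
    fun p => hτ p.1 p.2

lemma comp_ts (σ : ∀ n, TracialState (A n)) (hσ : ∀ n x, (σ (n + 1)).val (φ n x) = (σ n).val x)
    {n m : ℕ} (hnm : n ≤ m) (x : A n) : (σ m).val (trans φ n m x) = (σ n).val x := by
  induction m, hnm using Nat.le_induction with
  | base => rw [trans_self]
  | succ m hm ih => rw [trans_succ φ hm, hσ, ih]

/-- a compatible sequence of tracial states is a tracial state of the limit -/
theorem ts_lim (h : IsLim φ j) (σ : ∀ n, TracialState (A n))
    (hσ : ∀ n x, (σ (n + 1)).val (φ n x) = (σ n).val x) :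
    ∃ τ : TracialState L, ∀ n x, τ.val (j n x) = (σ n).val x := by
  classical
  have key : ∀ n (x : A n) m (x' : A m), ‖(σ n).val x - (σ m).val x'‖ ≤ ‖j n x - j m x'‖ := by
    intro n x m x'
    rw [← comp_ts σ hσ (le_max_left n m) x, ← comp_ts σ hσ (le_max_right n m) x', ← map_sub]
    refine (ts_norm _ _).trans (le_of_eq ?_)
    rw [← norm_map_inj (j (max n m)) (h.inj _), map_sub, comp_trans j h.comp (le_max_left _ _),
      comp_trans j h.comp (le_max_right _ _)]
  let f : L → ℂ := fun y => if hy : ∃ p : Σ n, A n, j p.1 p.2 = y then (σ hy.choose.1).val hy.choose.2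
    else 0
  have hf : ∀ n (x : A n), f (j n x) = (σ n).val x := by
    intro n x
    have hy : ∃ p : Σ n, A n, j p.1 p.2 = j n x := ⟨⟨n, x⟩, rfl⟩
    have h1 : f (j n x) = (σ hy.choose.1).val hy.choose.2 := dif_pos hy
    have h2 := key hy.choose.1 hy.choose.2 n x
    rw [hy.choose_spec, sub_self, norm_zero] at h2
    rw [h1]
    exact sub_eq_zero.1 (norm_le_zero_iff.1 h2)
  have hex : ∀ (ρ : ℂ → ℝ), (∀ z w, |ρ z - ρ w| ≤ ‖z - w‖) →
      ∃ g : L → ℝ, Continuous g ∧ ∀ n (x : A n), g (j n x) = ρ ((σ n).val x) := by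
    intro ρ hρ
    have hlip : LipschitzOnWith 1 (fun y => ρ (f y)) (Set.range fun p : Σ n, A n => j p.1 p.2) := by
      apply LipschitzOnWith.of_dist_le_mul
      rintro _ ⟨p, rfl⟩ _ ⟨p', rfl⟩
      simp only
      rw [hf, hf, Real.dist_eq, dist_eq_norm, NNReal.coe_one, one_mul]
      exact (hρ _ _).trans (key _ _ _ _)
    obtain ⟨g, hg, hgf⟩ := hlip.extend_real
    refine ⟨g, hg.continuous, fun n x => ?_⟩
    have h1 := hgf ⟨⟨n, x⟩, rfl⟩
    simp only at h1
    rw [← h1, hf]
  obtain ⟨gr, hgr, hgr'⟩ := hex Complex.re (fun z w => by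
    rw [← Complex.sub_re]; exact Complex.abs_re_le_norm _)
  obtain ⟨gi, hgi, hgi'⟩ := hex Complex.im (fun z w => by
    rw [← Complex.sub_im]; exact Complex.abs_im_le_norm _)
  obtain ⟨g, hg, hg'⟩ : ∃ g : L → ℂ, Continuous g ∧ ∀ n (x : A n), g (j n x) = (σ n).val x := by
    refine ⟨fun y => (gr y : ℂ) + (gi y : ℂ) * Complex.I, by fun_prop, fun n x => ?_⟩
    show (gr (j n x) : ℂ) + (gi (j n x) : ℂ) * Complex.I = _
    rw [hgr', hgi', Complex.re_add_im]
  have hd := lim_denseRange h
  have hlift2 : ∀ (p p' : Σ n, A n), ∃ (K : ℕ) (x x' : A K), j p.1 p.2 = j K x ∧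
      j p'.1 p'.2 = j K x' := fun p p' =>
    ⟨max p.1 p'.1, trans φ _ _ p.2, trans φ _ _ p'.2, (comp_trans j h.comp (le_max_left _ _) _).symm,
      (comp_trans j h.comp (le_max_right _ _) _).symm⟩
  let gl : L →ₗ[ℂ] ℂ :=
    { toFun := g
      map_add' := fun y y' => by
        refine hd.induction_on₂ (p := fun y y' => g (y + y') = g y + g y')
          (isClosed_eq (hg.comp (continuous_fst.add continuous_snd))
            ((hg.comp continuous_fst).add (hg.comp continuous_snd))) (fun p p' => ?_) y y'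
        obtain ⟨K, x, x', h1, h2⟩ := hlift2 p p'
        show g (j p.1 p.2 + j p'.1 p'.2) = g (j p.1 p.2) + g (j p'.1 p'.2)
        rw [h1, h2, ← map_add (j K), hg', hg', hg', map_add]
      map_smul' := fun c y => by
        refine hd.induction_on (p := fun y => g (c • y) = c * g y) y
          (isClosed_eq (hg.comp (continuous_const_smul c)) (continuous_const.mul hg)) (fun p => ?_)
        show g (c • j p.1 p.2) = c * g (j p.1 p.2)
        rw [← map_smul (j p.1), hg', hg', map_smul, smul_eq_mul] }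
  refine ⟨{ val := gl, map_one := ?_, nonneg := ?_, comm := ?_ }, fun n x => hg' n x⟩
  · show g 1 = 1
    rw [← map_one (j 0), hg', (σ 0).map_one]
  · intro y
    refine hd.induction_on (p := fun y => 0 ≤ (gl (star y * y)).re ∧ (gl (star y * y)).im = 0) y ?_ ?_
    · have hc : Continuous fun y : L => gl (star y * y) := hg.comp (continuous_star.mul continuous_id)
      exact (isClosed_le continuous_const (Complex.continuous_re.comp hc)).inter
        (isClosed_eq (Complex.continuous_im.comp hc) continuous_const)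
    · intro p
      show 0 ≤ (g (star (j p.1 p.2) * j p.1 p.2)).re ∧ (g (star (j p.1 p.2) * j p.1 p.2)).im = 0
      rw [← map_star, ← map_mul, hg']
      exact (σ p.1).nonneg _
  · intro y y'
    refine hd.induction_on₂ (p := fun y y' => gl (y * y') = gl (y' * y)) ?_ (fun p p' => ?_) y y'
    · exact isClosed_eq (hg.comp (continuous_fst.mul continuous_snd))
        (hg.comp (continuous_snd.mul continuous_fst))
    · show g (j p.1 p.2 * j p'.1 p'.2) = g (j p'.1 p'.2 * j p.1 p.2)
      obtain ⟨K, x, x', h1, h2⟩ := hlift2 p p'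
      rw [h1, h2, ← map_mul, ← map_mul, hg', hg', (σ K).comm]

end lim

end Run7.h745.AH
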